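import Mathlib
import Pool.Agent.H7.Euler3

set_option autoImplicit false

namespace Pool.Agent.Results.MP_2d9e0f_co.SixCounterexample

/-- `φ : X^s → X^s` is a `(t, s, |X|)`-all-or-nothing transform: it is a bijection, and for all
`I, J ⊆ [s]` of size `t` the map `x ↦ (x_I, φ(x)_{[s] \ J})` is a bijection. -/
def IsAONT (t s : ℕ) (X : Type) (φ : (Fin s → X) → (Fin s → X)) : Prop :=
  Function.Bijective φ ∧ ∀ I J : Finset (Fin s), I.card = t → J.card = t →
    Function.Bijective (fun x : Fin s → X =>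
      ((fun i : {i : Fin s // i ∈ I} => x i.1, fun j : {j : Fin s // j ∉ J} => φ x j.1) :
        ({i : Fin s // i ∈ I} → X) × ({j : Fin s // j ∉ J} → X)))

def tab : ℕ := 1137315196690260286216451923098563995086564687505573166847248125127956187080697567753930577845957688632817062372918575813129343867467745542712609169051279228104820861646676236063951855663478571514035077267718135588698637284848947874613157204102483776815411125109138544168658400460418967472947449981219969411048840797577687662824831463210668373215304026270782454147663864088062321430003035692568690905206494117196778962450887114836754670154642611768232054322732454623335639068479009537142161411583553153644430602636014757926826542595975281935042552996220590666207852078973337445759080448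

def f (a b c : Fin 6) (k : Fin 3) : Fin 6 :=
  ⟨(tab >>> (3 * (3 * ((a.val * 6 + b.val) * 6 + c.val) + k.val))) % 8 % 6,
    Nat.mod_lt _ (by norm_num)⟩

theorem f0 : ∀ a b c b' c' : Fin 6, ∀ j : Fin 3,
    (∀ k : Fin 3, k ≠ j → f a b c k = f a b' c' k) → b = b' ∧ c = c' := by decide +kernel

theorem f1 : ∀ a b c a' c' : Fin 6, ∀ j : Fin 3,
    (∀ k : Fin 3, k ≠ j → f a b c k = f a' b c' k) → a = a' ∧ c = c' := by decide +kernel

theorem f2 : ∀ a b c a' b' : Fin 6, ∀ j : Fin 3,
    (∀ k : Fin 3, k ≠ j → f a b c k = f a' b' c k) → a = a' ∧ b = b' := by decide +kernel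

theorem f3 : ∀ a b c a' b' c' : Fin 6, f a b c 0 = f a' b' c' 0 → f a b c 1 = f a' b' c' 1 →
    f a b c 2 = f a' b' c' 2 → a = a' ∧ b = b' ∧ c = c' := by decide +kernel

theorem ext3 (x y : Fin 3 → Fin 6) (h0 : x 0 = y 0) (h1 : x 1 = y 1) (h2 : x 2 = y 2) :
    x = y := by
  funext i
  fin_cases i
  exacts [h0, h1, h2]

theorem exists_three : ∃ φ, IsAONT 1 3 (Fin 6) φ := by
  refine ⟨fun x k => f (x 0) (x 1) (x 2) k, ?_, ?_⟩
  · apply Finite.injective_iff_bijective.mp
    intro x y e
    have := f3 _ _ _ _ _ _ (congrFun e 0) (congrFun e 1) (congrFun e 2)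
    exact ext3 x y this.1 this.2.1 this.2.2
  · intro I J hI hJ
    obtain ⟨i, rfl⟩ := Finset.card_eq_one.mp hI
    obtain ⟨j, rfl⟩ := Finset.card_eq_one.mp hJ
    rw [Fintype.bijective_iff_injective_and_card]
    refine ⟨fun x y e => ?_, ?_⟩
    · have e1 : x i = y i := congrFun (congrArg Prod.fst e) ⟨i, Finset.mem_singleton_self i⟩
      have e2 : ∀ k : Fin 3, k ≠ j → f (x 0) (x 1) (x 2) k = f (y 0) (y 1) (y 2) k :=
        fun k hk => congrFun (congrArg Prod.snd e) ⟨k, by simpa using hk⟩
      fin_cases i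
      · have e1' : x 0 = y 0 := e1
        rw [← e1'] at e2
        exact ext3 x y e1' (f0 _ _ _ _ _ j e2).1 (f0 _ _ _ _ _ j e2).2
      · have e1' : x 1 = y 1 := e1
        rw [← e1'] at e2
        exact ext3 x y (f1 _ _ _ _ _ j e2).1 e1' (f1 _ _ _ _ _ j e2).2
      · have e1' : x 2 = y 2 := e1
        rw [← e1'] at e2
        exact ext3 x y (f2 _ _ _ _ _ j e2).1 (f2 _ _ _ _ _ j e2).2 e1'
    · simp [Fintype.card_subtype_compl]

theorem not_two : ¬ ∃ φ, IsAONT 1 2 (Fin 6) φ := by
  rintro ⟨φ, hb, h⟩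
  have key : ∀ (i j k : Fin 2), k ≠ j → (∀ l : Fin 2, l ≠ j → l = k) →
      ∀ x y : Fin 2 → Fin 6, x i = y i → φ x k = φ y k → x = y := by
    intro i j k _ hk x y e1 e2
    apply (h {i} {j} (Finset.card_singleton i) (Finset.card_singleton j)).1
    apply Prod.ext
    · funext a
      have : a.1 = i := Finset.mem_singleton.mp a.2
      show x a.1 = y a.1
      rw [this]; exact e1
    · funext a
      have : a.1 = k := hk a.1 (by simpa using a.2)
      show φ x a.1 = φ y a.1
      rw [this]; exact e2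
  have k0 := fun i => key i 1 0 (by decide) (by decide)
  have k1 := fun i => key i 0 1 (by decide) (by decide)
  apply Pool.Agent.H7.Euler.euler (A := fun r c => φ ![r, c] 0) (B := fun r c => φ ![r, c] 1)
  refine ⟨fun r c c' e => ?_, fun r r' c e => ?_, fun r c c' e => ?_, fun r r' c e => ?_,
    fun r c r' c' e e' => ?_⟩
  · exact congrFun (k0 0 ![r, c] ![r, c'] rfl e) 1
  · exact congrFun (k0 1 ![r, c] ![r', c] rfl e) 0
  · exact congrFun (k1 0 ![r, c] ![r, c'] rfl e) 1
  · exact congrFun (k1 1 ![r, c] ![r', c] rfl e) 0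
  · have : φ ![r, c] = φ ![r', c'] := by
      funext l
      fin_cases l
      exacts [e, e']
    have := hb.1 this
    exact ⟨congrFun this 0, congrFun this 1⟩

/-- A `(1,3,6)`-AONT exists, but no `(1,2,6)`-AONT exists. -/
theorem result :
    (∃ φ : (Fin 3 → Fin 6) → (Fin 3 → Fin 6), IsAONT 1 3 (Fin 6) φ) ∧
      ¬ ∃ φ : (Fin 2 → Fin 6) → (Fin 2 → Fin 6), IsAONT 1 2 (Fin 6) φ :=
  ⟨exists_three, not_two⟩

end Pool.Agent.Results.MP_2d9e0f_co.SixCounterexample
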